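import Pool.Agent.PQP.StmtsC

/-!
# Row CMW of the squad PQP: the `L¹` form of the compactness statement
-/

set_option autoImplicit false

open scoped InnerProductSpace Topology ContDiff Manifold
open MeasureTheory Filter Set

noncomputable section

namespace Pool.Agent.PQP.H26

open Pool.Agent.Helper42_Paneitz Pool.Agent.Helper82_Vir Pool.Agent.FLX

theorem jac_nonneg (b : E5) (x : S4) : 0 ≤ Jac b x := by
  unfold Jac
  positivity

/-- a direction of `b` -/
theorem exists_dir (b : E5) : ∃ w : S4, b = ‖b‖ • (w : E5) := by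
  by_cases hb : b = 0
  · subst hb
    have hn : Nonempty S4 := by
      have : (Metric.sphere (0 : E5) 1).Nonempty := NormedSpace.sphere_nonempty.2 zero_le_one
      exact this.to_subtype
    exact ⟨Classical.arbitrary S4, by simp⟩
  · have h : ‖b‖ ≠ 0 := norm_ne_zero_iff.2 hb
    refine ⟨⟨‖b‖⁻¹ • b, ?_⟩, ?_⟩
    · rw [mem_sphere_zero_iff_norm, norm_smul, norm_inv, norm_norm, inv_mul_cancel₀ h]
    · show b = ‖b‖ • (‖b‖⁻¹ • b)
      rw [smul_smul, mul_inv_cancel₀ h, one_smul]

theorem cmw (cmp : CmpStmt) (vol : VolStmt) (mom : MomStmt) : CmwStmt := by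
  intro ε hε
  obtain ⟨C, hC, hvol⟩ := vol
  have hm := msig_pos
  set K : ℝ := 2 + 2 * C / msig with hK
  have hK0 : 0 < K := by
    have : 0 ≤ 2 * C / msig := by positivity
    linarith
  set η : ℝ := min 1 (ε / K) with hη
  have hη0 : 0 < η := lt_min one_pos (by positivity)
  have hη1 : η ≤ 1 := min_le_left _ _
  have hηK : η * K ≤ ε := by
    have := min_le_right 1 (ε / K)
    rw [← hη, le_div_iff₀ hK0] at this
    exact this
  obtain ⟨θ, hθ, hcmp⟩ := cmp η hη0
  refine ⟨θ, hθ, fun W G f b hLG hSol hb hBal hle => ?_⟩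
  obtain ⟨w, hw⟩ := exists_dir b
  have hpt := hcmp W G f b w hLG hSol hb hw hBal hle
  obtain ⟨⟨hfc, hfp, hf1⟩, -⟩ := hSol
  set F : S4 → ℝ := pull b f with hF
  have hF1 : ∫ x, F x ∂sig = 1 := (mom b hb f).trans hf1
  have hFi : Integrable F sig := integrable_of_integral_eq_one hF1
  have hF0 : ∀ x, 0 ≤ F x := fun x => mul_nonneg (hfp _).le (jac_nonneg b x)
  set E : Set S4 := {x : S4 | ⟪(w : E5), (x : E5)⟫_ℝ < -1 + η} with hE
  have hcont : Continuous fun x : S4 => ⟪(w : E5), (x : E5)⟫_ℝ :=
    continuous_const.inner continuous_subtype_val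
  have hEo : IsOpen E := isOpen_lt hcont continuous_const
  have hEm : MeasurableSet E := hEo.measurableSet
  have hEs : (sig E).toReal ≤ C * η ^ 2 := by
    have hsub : E ⊆ {y : S4 | 1 - ⟪((-w : S4) : E5), (y : E5)⟫_ℝ ≤ η} := by
      intro y hy
      have hy' : ⟪(w : E5), (y : E5)⟫_ℝ < -1 + η := hy
      show 1 - ⟪((-w : S4) : E5), (y : E5)⟫_ℝ ≤ η
      have : ((-w : S4) : E5) = -(w : E5) := rfl
      rw [this, inner_neg_left]
      linarith
    have h1 : sig E ≤ ENNReal.ofReal (C * η ^ 2) :=
      (measure_mono hsub).trans (hvol (-w) η hη0 hη1)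
    exact ENNReal.toReal_le_of_le_ofReal (by positivity) h1
  have hptw : ∀ x, |F x - 1 / msig| ≤ (F x - 1 / msig) + (2 * η / msig +
      E.indicator (fun _ => 2 / msig) x) := by
    intro x
    have hm' : (0 : ℝ) < 1 / msig := by positivity
    by_cases hx : x ∈ E
    · rw [indicator_of_mem hx]
      have h0 := hF0 x
      have hη' : 0 ≤ 2 * η / msig := by positivity
      have h2 : 2 / msig = 2 * (1 / msig) := by ring
      rw [h2]
      rcases abs_cases (F x - 1 / msig) with ⟨h, -⟩ | ⟨h, -⟩ <;> rw [h] <;> linarith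
    · rw [indicator_of_notMem hx, add_zero]
      have hx' : -1 + η ≤ ⟪(w : E5), (x : E5)⟫_ℝ := not_lt.1 hx
      have h1 := hpt x hx'
      have h3 : |F x - 1 / msig| ≤ η / msig := by
        have : F x - 1 / msig = (msig * F x - 1) / msig := by
          field_simp
        rw [this, abs_div, abs_of_pos hm]
        exact div_le_div_of_nonneg_right h1 hm.le
      have h4 := neg_abs_le (F x - 1 / msig)
      have h5 : 2 * η / msig = 2 * (η / msig) := by ring
      rw [h5]
      linarith
  have hci : Integrable (fun x => F x - 1 / msig) sig := hFi.sub (integrable_const _)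
  have hii : Integrable (E.indicator (fun _ : S4 => 2 / msig)) sig :=
    (integrable_const _).indicator hEm
  have hint : Integrable (fun x => (F x - 1 / msig) + (2 * η / msig +
      E.indicator (fun _ => 2 / msig) x)) sig :=
    hci.add ((integrable_const _).add hii)
  calc ∫ x, |F x - 1 / msig| ∂sig
      ≤ ∫ x, ((F x - 1 / msig) + (2 * η / msig + E.indicator (fun _ => 2 / msig) x)) ∂sig :=
        integral_mono hci.abs hint hptw
    _ = (∫ x, (F x - 1 / msig) ∂sig) + ((∫ _ : S4, 2 * η / msig ∂sig) +
          ∫ x, E.indicator (fun _ => 2 / msig) x ∂sig) := by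
        have e1 := integral_add (μ := sig) (f := fun _ : S4 => 2 * η / msig)
          (g := fun x => E.indicator (fun _ : S4 => 2 / msig) x) (integrable_const _) hii
        have e2 := integral_add (μ := sig) (f := fun x => F x - 1 / msig)
          (g := fun x => 2 * η / msig + E.indicator (fun _ : S4 => 2 / msig) x) hci
          ((integrable_const _).add hii)
        rw [e2, e1]
    _ = (1 - msig * (1 / msig)) + (msig * (2 * η / msig) + (sig E).toReal * (2 / msig)) := by
        rw [integral_sub hFi (integrable_const _), hF1, integral_const_sig, integral_const_sig,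
          integral_indicator_const _ hEm, smul_eq_mul]
        rfl
    _ = 2 * η + 2 / msig * (sig E).toReal := by
        field_simp
        ring
    _ ≤ 2 * η + 2 / msig * (C * η ^ 2) := by
        have := mul_le_mul_of_nonneg_left hEs (by positivity : (0:ℝ) ≤ 2 / msig)
        linarith
    _ ≤ η * K := by
        have h1 : η ^ 2 ≤ η := by nlinarith
        have h2 : 2 / msig * (C * η ^ 2) ≤ 2 / msig * (C * η) := by
          apply mul_le_mul_of_nonneg_left _ (by positivity)
          exact mul_le_mul_of_nonneg_left h1 hC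
        have h3 : η * K = 2 * η + 2 / msig * (C * η) := by
          rw [hK]; ring
        linarith
    _ ≤ ε := hηK

end Pool.Agent.PQP.H26
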