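import Pool.Agent.PQP.StmtsN

/-!
# Row SPL of the squad PQP: the splitting of the Kazdan-Warner identity
-/

set_option autoImplicit false

open scoped InnerProductSpace Topology ContDiff Manifold
open MeasureTheory Filter Set

noncomputable section

namespace Pool.Agent.PQP.H26

open Pool.Agent.Helper42_Paneitz Pool.Agent.Helper82_Vir Pool.Agent.FLX

theorem norm_cf_le {a : E5} {A : E5 →L[ℝ] E5} {M : ℝ} (ha : ‖a‖ ≤ M) (hA : ‖A‖ ≤ M) (x : S4) :
    ‖cf a A x‖ ≤ 3 * M := by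
  unfold cf
  have h1 : ‖⟪a, (x : E5)⟫_ℝ • (x : E5)‖ ≤ M := by
    rw [norm_smul, S4_norm, mul_one, Real.norm_eq_abs]
    have := abs_real_inner_le_norm a (x : E5)
    rw [S4_norm, mul_one] at this
    linarith
  have h2 : ‖A (x : E5)‖ ≤ M := by
    have := A.le_opNorm (x : E5)
    rw [S4_norm, mul_one] at this
    linarith
  have h3 := norm_add_le (a - ⟪a, (x : E5)⟫_ℝ • (x : E5)) (A (x : E5))
  have h4 := norm_sub_le a (⟪a, (x : E5)⟫_ℝ • (x : E5))
  linarith

theorem measurableSet_cap (z : S4) (u : ℝ) : MeasurableSet (cap z u) := by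
  have hcont : Continuous fun x : S4 => 1 - ⟪(z : E5), (x : E5)⟫_ℝ :=
    continuous_const.sub (continuous_const.inner continuous_subtype_val)
  exact (isClosed_le hcont continuous_const).measurableSet

theorem spl (far : FarStmt) (kwa : KwaStmt) (wtl : WtlStmt) : SplStmt := by
  intro ψ N hψ ε₁ c ρ ε M hε₁ hc hρ hρ8 hε hM
  have hsm : Sm ψ := hψ.1
  obtain ⟨hdl, hWt, L, hL, -, hLd, -⟩ := wtl ψ hsm
  have hLM : 0 < 3 * L * M := by positivity
  obtain ⟨T₀, hT₀, hfar⟩ := far ψ N hψ ε₁ c ρ (ε / (3 * L * M)) hε₁ hc hρ (by positivity)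
  refine ⟨max T₀ (4 / ε₁), lt_max_of_lt_left hT₀, fun t f w lam ht hB a A hA hav hAv => ?_⟩
  have htT : T₀ ≤ t := (le_max_left _ _).trans ht
  have ht4 : 4 / ε₁ ≤ t := (le_max_right _ _).trans ht
  have ht0 : 0 < t := hT₀.trans_le htT
  have h4t : 4 / t ≤ ε₁ := by
    rw [div_le_iff₀ hε₁] at ht4
    rw [div_le_iff₀ ht0]
    linarith
  have hF := hfar t f w lam htT hB
  obtain ⟨hSol, hlam0, hlam1, -, -, hNw, -⟩ := hB
  obtain ⟨⟨hfc, hfp, hf1⟩, -⟩ := id hSol
  set g : S4 → ℝ := fun x => dd ψ x (cf a A x) with hg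
  have hgc : Continuous g := continuous_dd_field hsm (smV_cf a A).continuous
  have hgb : ∀ x, |g x| ≤ 3 * L * M := by
    intro x
    have h1 := hLd x (cf a A x)
    have h2 := norm_cf_le hav hAv x
    have h3 : L * ‖cf a A x‖ ≤ L * (3 * M) := mul_le_mul_of_nonneg_left h2 hL.le
    calc |g x| ≤ L * ‖cf a A x‖ := h1
      _ ≤ L * (3 * M) := h3
      _ = 3 * L * M := by ring
  have hgf : Continuous fun x => g x * f x := hgc.mul hfc
  have hgfi : Integrable (fun x => g x * f x) sig :=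
    hgf.integrable_of_hasCompactSupport (HasCompactSupport.of_compactSpace _)
  have hfi : Integrable f sig :=
    hfc.integrable_of_hasCompactSupport (HasCompactSupport.of_compactSpace _)
  -- the identity
  have hK : ∫ x, g x * f x ∂sig = 0 := by
    have h := kwa (Wt ψ t) f a A (hWt t).1 (hWt t).2 hSol hA
    have h2 : (fun x => dlog (Wt ψ t) x (cf a A x) * f x) = fun x => -t * (g x * f x) := by
      funext x
      rw [hdl t x]
      simp only [hg]
      ring
    rw [h2, integral_const_mul] at h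
    rcases mul_eq_zero.1 h with h3 | h3
    · linarith
    · exact h3
  -- the sets
  set C1 : Set S4 := cap w (1 / t) with hC1
  set C2 : Set S4 := cap N ρ with hC2
  have hm1 : MeasurableSet C1 := measurableSet_cap _ _
  have hm2 : MeasurableSet C2 := measurableSet_cap _ _
  have hdisj : Disjoint C1 C2 := by
    rw [Set.disjoint_left]
    intro x hx1 hx2
    have h1 : 1 - ⟪(w : E5), (x : E5)⟫_ℝ ≤ 1 / t := hx1
    have h2 : 1 - ⟪(N : E5), (x : E5)⟫_ℝ ≤ ρ := hx2
    have e1 := norm_sub_sq_S4 w x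
    have e2 := norm_sub_sq_S4 N x
    have e3 := norm_sub_sq_S4 N w
    have h3 : ‖(N : E5) - (w : E5)‖ ≤ ‖(N : E5) - (x : E5)‖ + ‖(w : E5) - (x : E5)‖ := by
      have : (N : E5) - (w : E5) = ((N : E5) - (x : E5)) - ((w : E5) - (x : E5)) := by abel
      rw [this]
      exact norm_sub_le _ _
    have h4 : ‖(N : E5) - (w : E5)‖ ^ 2 ≤
        2 * ‖(N : E5) - (x : E5)‖ ^ 2 + 2 * ‖(w : E5) - (x : E5)‖ ^ 2 := by
      have h5 := pow_le_pow_left₀ (norm_nonneg _) h3 2
      nlinarith [sq_nonneg (‖(N : E5) - (x : E5)‖ - ‖(w : E5) - (x : E5)‖)]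
    rw [e1, e2, e3] at h4
    have h6 : 4 * (1 / t) ≤ ε₁ := by
      have : 4 * (1 / t) = 4 / t := by ring
      rw [this]; exact h4t
    linarith
  have hcompl : (C1 ∪ C2)ᶜ =
      {x : S4 | 1 / t < 1 - ⟪(w : E5), (x : E5)⟫_ℝ ∧ ρ < 1 - ⟪(N : E5), (x : E5)⟫_ℝ} := by
    ext x
    simp only [hC1, hC2, cap, mem_compl_iff, mem_union, mem_setOf_eq, not_or, not_le]
  have hsplit : (∫ x in C1, g x * f x ∂sig) + (∫ x in C2, g x * f x ∂sig) =
      - ∫ x in (C1 ∪ C2)ᶜ, g x * f x ∂sig := by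
    have e1 := setIntegral_union hdisj hm2 hgfi.integrableOn hgfi.integrableOn
    have e2 := integral_add_compl (hm1.union hm2) hgfi
    rw [hK, e1] at e2
    linarith
  show |(∫ x in C1, g x * f x ∂sig) + ∫ x in C2, g x * f x ∂sig| ≤ ε * GN N ρ f
  rw [hsplit, abs_neg]
  have hb : |∫ x in (C1 ∪ C2)ᶜ, g x * f x ∂sig| ≤ 3 * L * M * ∫ x in (C1 ∪ C2)ᶜ, f x ∂sig := by
    rw [← integral_const_mul]
    have h1 : ‖∫ x in (C1 ∪ C2)ᶜ, g x * f x ∂sig‖ ≤ ∫ x in (C1 ∪ C2)ᶜ, 3 * L * M * f x ∂sig := by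
      apply norm_integral_le_of_norm_le (hfi.integrableOn.const_mul _)
      refine Filter.Eventually.of_forall fun x => ?_
      rw [Real.norm_eq_abs, abs_mul, abs_of_pos (hfp x)]
      exact mul_le_mul_of_nonneg_right (hgb x) (hfp x).le
    rwa [Real.norm_eq_abs] at h1
  rw [hcompl] at hb ⊢
  calc _ ≤ _ := hb
    _ ≤ 3 * L * M * (ε / (3 * L * M) * GN N ρ f) := mul_le_mul_of_nonneg_left hF hLM.le
    _ = ε * GN N ρ f := by
        field_simp

end Pool.Agent.PQP.H26
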